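import Pool.Agent.Q34.GB
import Mathlib.Tactic.IntervalCases

set_option autoImplicit false

namespace Pool.Agent.Results.MP_f8e877_nt.PartCFailsAtEleven

open Pool.Agent.Q34

/-- the generalized central trinomial coefficient `T_n(b,c)` -/
def T (b c : ℤ) (n : ℕ) : ℤ :=
  ∑ j ∈ Finset.range (n / 2 + 1),
    (n.choose (2 * j) : ℤ) * ((2 * j).choose j : ℤ) * b ^ (n - 2 * j) * c ^ j

/-- `A_k = C(2k,k) C(3k,k)` -/
def A (k : ℕ) : ℚ := ((2 * k).choose k : ℚ) * ((3 * k).choose k : ℚ)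

/-- `B_k = C(2k,k)^2` -/
def B (k : ℕ) : ℚ := ((2 * k).choose k : ℚ) ^ 2

/-- `u_k = T_k(18,1) / 512^k` -/
def u (k : ℕ) : ℚ := (T 18 1 k : ℚ) / 512 ^ k

/-- `v_k = T_{3k}(6,1) / (-512)^k` -/
def v (k : ℕ) : ℚ := (T 6 1 (3 * k) : ℚ) / (-512) ^ k

/-- Parts (a), (b), (c) of Q1 for the prime `p` (with the factor `B_k` in (c), as posed). -/
def Posed (p : ℕ) : Prop :=
  (Cong p 2 (∑ k ∈ Finset.range p, A k * u k)
      (jacobiSym 10 p * ∑ k ∈ Finset.range p, A k * v k) ∧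
    (jacobiSym p 5 = 1 → jacobiSym p 7 = 1 → ∀ x y : ℤ, 4 * (p : ℤ) = x ^ 2 + 35 * y ^ 2 →
      Cong p 2 (∑ k ∈ Finset.range p, A k * u k) (x ^ 2 - 2 * p)) ∧
    (jacobiSym p 5 = -1 → jacobiSym p 7 = -1 → ∀ x y : ℤ, 4 * (p : ℤ) = 5 * x ^ 2 + 7 * y ^ 2 →
      Cong p 2 (∑ k ∈ Finset.range p, A k * u k) (2 * p - 5 * x ^ 2)) ∧
    (jacobiSym p 35 = -1 → Cong p 2 (∑ k ∈ Finset.range p, A k * u k) 0)) ∧
  Cong p 2 (∑ k ∈ Finset.range p, (35 * (k : ℚ) + 9) * A k * u k)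
    (9 / 2 * p * (7 - 5 * jacobiSym p 5)) ∧
  Cong p 2 (∑ k ∈ Finset.range p, (35 * (k : ℚ) + 9) * B k * v k)
    (9 / 32 * p * jacobiSym 2 p * (25 + 7 * jacobiSym p 7))

/-- The conjunction of Q1 is false: part (c), with the factor `B_k` as posed, fails for
`p = 11`. -/
theorem result : ¬ ∀ p : ℕ, p.Prime → 7 < p → Posed p := by
  intro h
  have h7 := (h 11 (by norm_num) (by norm_num)).2.2
  have e1 : jacobiSym 2 11 = -1 := by norm_num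
  have e2 : jacobiSym ((11 : ℕ) : ℤ) 7 = 1 := by norm_num
  rw [e1, e2] at h7
  refine not_cong (by norm_num) ?_ h7
  decide +kernel

end Pool.Agent.Results.MP_f8e877_nt.PartCFailsAtEleven
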